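import Pool.Agent.Lib.MP_d55432_al.G2.H94.CH

/-!
# G2, module WALL: the closures of the rays on the walls

On the orbit of a ray on a wall a polynomial identity of degree three or five holds, and the
invariants are proportional. These identities pass to the Zariski closure.
-/

namespace Pool.Agent.Lib.MP_d55432_al.G2.H87

open Matrix LieAlgebra

attribute [local instance 100] LieRing.ofAssociativeRing

variable {K : Type*} [Field K]

theorem TT_mem (l m : K) : TT l m ∈ g2 K := by
  intro x y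
  funext i
  fin_cases i <;> simp [TT, br, Matrix.mulVec_diagonal] <;> ring

theorem smul_TT (c l m : K) : c • TT l m = TT (c * l) (c * m) := by
  rw [TT, TT, ← Matrix.diagonal_smul]
  congr 1
  funext i
  fin_cases i <;> simp <;> ring

theorem TT_isDiag (l m : K) : IsDiag (TT l m) := by
  have h : ∀ i : Fin 7, (Pi.single i 1 : V7 K) ∈
      (⨆ μ : K, Module.End.eigenspace (Matrix.toLin' (TT l m)) μ) := by
    intro i
    refine Submodule.mem_iSup_of_mem (![0, l, m, -l - m, -l, -m, l + m] i) ?_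
    rw [Module.End.mem_eigenspace_iff, Matrix.toLin'_apply, TT]
    funext j
    rw [Matrix.mulVec_diagonal]
    by_cases hj : j = i
    · subst hj
      simp
    · simp [Pi.single_eq_of_ne hj]
  rw [IsDiag, eq_top_iff, ← (Pi.basisFun K (Fin 7)).span_eq, Submodule.span_le]
  rintro _ ⟨i, rfl⟩
  rw [Pi.basisFun_apply]
  exact h i

/-- Three times the identity of the first wall. -/
theorem wall_one [CharZero K] (l m : K) (h : l * m * (l + m) = 0) :
    (TT l m) ^ 3 - ((l ^ 2 + m ^ 2 + (l + m) ^ 2) / 2) • (TT l m) = 0 := by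
  have h2 : (2 : K) ≠ 0 := by norm_num
  rw [TT, Matrix.diagonal_pow, ← Matrix.diagonal_smul, Matrix.diagonal_sub,
    Matrix.diagonal_eq_zero]
  funext i
  rcases mul_eq_zero.1 h with h | h
  · rcases mul_eq_zero.1 h with h | h
    · subst h
      fin_cases i <;> simp <;> field_simp <;> ring
    · subst h
      fin_cases i <;> simp <;> field_simp <;> ring
  · have : m = -l := by linear_combination h
    subst this
    fin_cases i <;> simp <;> field_simp <;> ring

theorem wall_two [CharZero K] (l m : K) (h : (l - m) * (2 * l + m) * (l + 2 * m) = 0) :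
    (TT l m) ^ 5 - (5 * (l ^ 2 + m ^ 2 + (l + m) ^ 2) / 6) • (TT l m) ^ 3 +
      ((l ^ 2 + m ^ 2 + (l + m) ^ 2) ^ 2 / 9) • (TT l m) = 0 := by
  have h6 : (6 : K) ≠ 0 := by norm_num
  have h9 : (9 : K) ≠ 0 := by norm_num
  rw [TT, Matrix.diagonal_pow, Matrix.diagonal_pow, ← Matrix.diagonal_smul,
    ← Matrix.diagonal_smul, Matrix.diagonal_sub, Matrix.diagonal_add, Matrix.diagonal_eq_zero]
  funext i
  rcases mul_eq_zero.1 h with h | h
  · rcases mul_eq_zero.1 h with h | h
    · have : m = l := by linear_combination -h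
      subst this
      fin_cases i <;> simp <;> field_simp <;> ring
    · have : m = -(2 * l) := by linear_combination h
      subst this
      fin_cases i <;> simp <;> field_simp <;> ring
  · have : l = -(2 * m) := by linear_combination h
    subst this
    fin_cases i <;> simp <;> field_simp <;> ring

theorem s2_ne [CharZero K] (l m : K) (h0 : l ≠ 0 ∨ m ≠ 0) (h : ¬ Reg l m) :
    l ^ 2 + m ^ 2 + (l + m) ^ 2 ≠ 0 := by
  have h2 : (2 : K) ≠ 0 := by norm_num
  have h6 : (6 : K) ≠ 0 := by norm_num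
  have key : l * m * (l + m) * (l - m) * (2 * l + m) * (l + 2 * m) = 0 := not_not.1 h
  intro hs
  have key2 : l = 0 ∨ m = 0 ∨ m = -l ∨ m = l ∨ m = -(2 * l) ∨ l = -(2 * m) := by
    rcases mul_eq_zero.1 key with h | h
    · rcases mul_eq_zero.1 h with h | h
      · rcases mul_eq_zero.1 h with h | h
        · rcases mul_eq_zero.1 h with h | h
          · rcases mul_eq_zero.1 h with h | h
            · exact Or.inl h
            · exact Or.inr (Or.inl h)
          · exact Or.inr (Or.inr (Or.inl (by linear_combination h)))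
        · exact Or.inr (Or.inr (Or.inr (Or.inl (by linear_combination -h))))
      · exact Or.inr (Or.inr (Or.inr (Or.inr (Or.inl (by linear_combination h)))))
    · exact Or.inr (Or.inr (Or.inr (Or.inr (Or.inr (by linear_combination h)))))
  have hz : l = 0 ∧ m = 0 := by
    rcases key2 with rfl | rfl | rfl | rfl | rfl | rfl
    · have : 2 * m ^ 2 = 0 := by linear_combination hs
      exact ⟨rfl, by simpa [h2] using this⟩
    · have : 2 * l ^ 2 = 0 := by linear_combination hs
      exact ⟨by simpa [h2] using this, rfl⟩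
    · have : 2 * l ^ 2 = 0 := by linear_combination hs
      have hl : l = 0 := by simpa [h2] using this
      exact ⟨hl, by rw [hl, neg_zero]⟩
    · have : 6 * m ^ 2 = 0 := by linear_combination hs
      have hl : m = 0 := by simpa [h6] using this
      exact ⟨hl, hl⟩
    · have : 6 * l ^ 2 = 0 := by linear_combination hs
      have hl : l = 0 := by simpa [h6] using this
      exact ⟨hl, by rw [hl, mul_zero, neg_zero]⟩
    · have : 6 * m ^ 2 = 0 := by linear_combination hs
      have hl : m = 0 := by simpa [h6] using this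
      exact ⟨by rw [hl, mul_zero, neg_zero], hl⟩
  rcases h0 with h0 | h0
  · exact h0 hz.1
  · exact h0 hz.2

theorem wall [IsAlgClosed K] [CharZero K] (hinv : INV_S K) (hrd : RD_S K) : WALL_S K := by
  obtain ⟨hi1, hi2, hi3, hi4, hi5⟩ := hinv
  obtain ⟨hr1, -, hr3, hr4, -⟩ := hrd
  intro l m h0 hreg X hX
  set s : K := l ^ 2 + m ^ 2 + (l + m) ^ 2 with hs
  set r : K := (l * m * (l + m)) ^ 2 with hr
  have hs0 : s ≠ 0 := s2_ne l m h0 hreg
  have h2 : (2 : K) ≠ 0 := by norm_num
  -- the invariants on the cone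
  have inv : ∀ Y : g2 K, (∃ c : K, c ≠ 0 ∧ Cj (c • TT l m) Y.1) → ∃ c : K, c ≠ 0 ∧
      (∃ g h, IsG g h ∧ Y.1 = g * TT (c * l) (c * m) * h) ∧ s2 Y.1 = c ^ 2 * s ∧
      s6 Y.1 = c ^ 6 * r := by
    rintro Y ⟨c, hc, hC⟩
    obtain ⟨e2, e6⟩ := hi1 _ _ hC
    obtain ⟨f2, f6⟩ := hi2 c (TT l m)
    obtain ⟨k2, k6⟩ := hi3 l m
    refine ⟨c, hc, ?_, by rw [e2, f2, k2], by rw [e6, f6, k6]⟩
    obtain ⟨g, h, H, e⟩ := hC
    exact ⟨g, h, H, by rw [e, smul_TT]⟩
  -- the relation between the invariants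
  have hrel : s6 X.1 * s ^ 3 = r * s2 X.1 ^ 3 := by
    have hp : (fun Y : g2 K => s6 Y.1 * s ^ 3 - r * s2 Y.1 ^ 3) ∈ PolyOn K (g2 K) :=
      (PolyOn K (g2 K)).sub_mem
        ((PolyOn K (g2 K)).mul_mem hi5 ((PolyOn K (g2 K)).algebraMap_mem (s ^ 3)))
        ((PolyOn K (g2 K)).mul_mem ((PolyOn K (g2 K)).algebraMap_mem r)
          ((PolyOn K (g2 K)).pow_mem hi4 3))
    have h := hX _ hp (fun Y hY => by
      obtain ⟨c, -, -, e2, e6⟩ := inv Y hY
      change s6 Y.1 * s ^ 3 - r * s2 Y.1 ^ 3 = 0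
      rw [e2, e6]
      ring)
    exact sub_eq_zero.1 h
  -- the case of a diagonalisable matrix
  have fin : s2 X.1 ≠ 0 → IsDiag X.1 → ∃ c : K, c ≠ 0 ∧ Cj (c • TT l m) X.1 := by
    intro hX2 hd
    obtain ⟨c, hc⟩ := IsAlgClosed.exists_pow_nat_eq (s2 X.1 / s) (n := 2) (by norm_num)
    have hc0 : c ≠ 0 := by
      rintro rfl
      have : s2 X.1 / s = 0 := by rw [← hc]; simp
      rcases div_eq_zero_iff.1 this with h | h
      · exact hX2 h
      · exact hs0 h
    refine ⟨c, hc0, ?_⟩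
    have e2 : c ^ 2 * s = s2 X.1 := by rw [hc]; field_simp
    have e6 : c ^ 6 * r = s6 X.1 := by
      have h3 : s ^ 3 ≠ 0 := pow_ne_zero 3 hs0
      apply mul_right_cancel₀ h3
      rw [hrel, ← e2]
      ring
    obtain ⟨f2, f6⟩ := hi2 c (TT l m)
    obtain ⟨k2, k6⟩ := hi3 l m
    refine hr1 _ ?_ _ X.2 ?_ hd (by rw [f2, k2]; exact e2) (by rw [f6, k6]; exact e6)
    · rw [smul_TT]
      exact TT_mem _ _
    · rw [smul_TT]
      exact TT_isDiag _ _
  have hcases : l * m * (l + m) = 0 ∨ (l - m) * (2 * l + m) * (l + 2 * m) = 0 := by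
    have key : l * m * (l + m) * (l - m) * (2 * l + m) * (l + 2 * m) = 0 := not_not.1 hreg
    have : (l * m * (l + m)) * ((l - m) * (2 * l + m) * (l + 2 * m)) = 0 := by
      linear_combination key
    exact mul_eq_zero.1 this
  rcases hcases with hw | hw
  · -- first wall
    have hid : X.1 ^ 3 - (s2 X.1 / 2) • X.1 = 0 := by
      ext i j
      have hEP : H94.EP (fun Y : g2 K => Y.1 ^ 3 - (s2 Y.1 / 2) • Y.1) := by
        have h2' : (fun Y : g2 K => s2 Y.1 / 2) ∈ PolyOn K (g2 K) := by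
          have h := (PolyOn K (g2 K)).smul_mem hi4 ((2 : K)⁻¹)
          have e : (fun Y : g2 K => s2 Y.1 / 2) = (2 : K)⁻¹ • (fun Y : g2 K => s2 Y.1) := by
            funext Y
            change s2 Y.1 / 2 = (2 : K)⁻¹ * s2 Y.1
            rw [div_eq_inv_mul]
          rw [e]
          exact h
        exact (H94.EP.coe.pow 3).sub (H94.EP.smul h2' H94.EP.coe)
      refine hX _ (hEP i j) (fun Y hY => ?_)
      obtain ⟨c, hc, ⟨g, h, H, e⟩, e2, -⟩ := inv Y hY
      have hz : Y.1 ^ 3 - (s2 Y.1 / 2) • Y.1 = 0 := by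
        have hw' := wall_one (c * l) (c * m) (by linear_combination c ^ 3 * hw)
        have es : s2 Y.1 = (c * l) ^ 2 + (c * m) ^ 2 + (c * l + c * m) ^ 2 := by
          rw [e2, hs]; ring
        rw [es, e, H94.conj_pow' H.2.1 H.1, H94.smul_conj, ← Matrix.sub_mul,
          ← Matrix.mul_sub, hw', Matrix.mul_zero, Matrix.zero_mul]
      change (Y.1 ^ 3 - (s2 Y.1 / 2) • Y.1) i j = 0
      rw [hz]
      rfl
    by_cases hX2 : s2 X.1 = 0
    · right
      have h3 : X.1 ^ 3 = 0 := by
        rw [hX2, zero_div, zero_smul, sub_zero] at hid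
        exact hid
      rw [show (5 : ℕ) = 3 + 2 from rfl, pow_add, h3, Matrix.zero_mul]
    · left
      exact fin hX2 (hr3 _ X.2 hX2 (sub_eq_zero.1 hid))
  · -- second wall
    have hid : X.1 ^ 5 - (5 * s2 X.1 / 6) • X.1 ^ 3 + (s2 X.1 ^ 2 / 9) • X.1 = 0 := by
      ext i j
      have hEP : H94.EP (fun Y : g2 K => Y.1 ^ 5 - (5 * s2 Y.1 / 6) • Y.1 ^ 3 +
          (s2 Y.1 ^ 2 / 9) • Y.1) := by
        have h5 : (fun Y : g2 K => 5 * s2 Y.1 / 6) ∈ PolyOn K (g2 K) := by
          have h := (PolyOn K (g2 K)).smul_mem hi4 ((5 : K) / 6)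
          have e : (fun Y : g2 K => 5 * s2 Y.1 / 6) = ((5 : K) / 6) •
              (fun Y : g2 K => s2 Y.1) := by
            funext Y
            change 5 * s2 Y.1 / 6 = ((5 : K) / 6) * s2 Y.1
            ring
          rw [e]
          exact h
        have h9 : (fun Y : g2 K => s2 Y.1 ^ 2 / 9) ∈ PolyOn K (g2 K) := by
          have h := (PolyOn K (g2 K)).smul_mem ((PolyOn K (g2 K)).pow_mem hi4 2) ((9 : K)⁻¹)
          have e : (fun Y : g2 K => s2 Y.1 ^ 2 / 9) = (9 : K)⁻¹ •
              (fun Y : g2 K => s2 Y.1) ^ 2 := by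
            funext Y
            change s2 Y.1 ^ 2 / 9 = (9 : K)⁻¹ * s2 Y.1 ^ 2
            rw [div_eq_inv_mul]
          rw [e]
          exact h
        exact ((H94.EP.coe.pow 5).sub (H94.EP.smul h5 (H94.EP.coe.pow 3))).add
          (H94.EP.smul h9 H94.EP.coe)
      refine hX _ (hEP i j) (fun Y hY => ?_)
      obtain ⟨c, hc, ⟨g, h, H, e⟩, e2, -⟩ := inv Y hY
      have hz : Y.1 ^ 5 - (5 * s2 Y.1 / 6) • Y.1 ^ 3 + (s2 Y.1 ^ 2 / 9) • Y.1 = 0 := by
        have hw' := wall_two (c * l) (c * m) (by linear_combination c ^ 3 * hw)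
        have es : s2 Y.1 = (c * l) ^ 2 + (c * m) ^ 2 + (c * l + c * m) ^ 2 := by
          rw [e2, hs]; ring
        rw [es, e, H94.conj_pow' H.2.1 H.1, H94.conj_pow' H.2.1 H.1, H94.smul_conj,
          H94.smul_conj, ← Matrix.sub_mul, ← Matrix.mul_sub, ← Matrix.add_mul,
          ← Matrix.mul_add, hw', Matrix.mul_zero, Matrix.zero_mul]
      change (Y.1 ^ 5 - (5 * s2 Y.1 / 6) • Y.1 ^ 3 + (s2 Y.1 ^ 2 / 9) • Y.1) i j = 0
      rw [hz]
      rfl
    by_cases hX2 : s2 X.1 = 0
    · right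
      rw [hX2, mul_zero, zero_div, zero_smul, sub_zero, zero_pow two_ne_zero, zero_div,
        zero_smul, add_zero] at hid
      exact hid
    · left
      refine fin hX2 (hr4 _ X.2 hX2 ?_)
      exact hid

end Pool.Agent.Lib.MP_d55432_al.G2.H87
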